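import Pool.Agent.Helper72.LSr.T2

/-!
# Section 4: (QL) (piece LR-S4a)
-/

namespace Pool.Agent.Helper24.LSr

open Finset
open scoped Classical
open Pool.Agent.Helper72.LSr

variable {V : Type} {j : ℕ} {G : SimpleGraph V} {S : Finset V} {k A B : ℕ}

/-- (QL) -/
theorem ql (h : QH V j G S k A B)
    (hE : ∀ v ∈ S, Yv k (A + 1) B G S v ≤ Dv k (A + 1) B G S v) {w : V} (hw : w ∈ S)
    (hmax : ∀ v ∈ S, Yv k (A + 1) B G S v * Dv k (A + 1) B G S w
      ≤ Yv k (A + 1) B G S w * Dv k (A + 1) B G S v)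
    (hY : 1 ≤ Yv k (A + 1) B G S w) :
    1 ≤ Dv k (A + 1) B G S w - Yv k (A + 1) B G S w - rS k (A + 1) B G S - K G (NH G S w) 2 ∧
    Dv k (A + 1) B G S w ≤ MS k (A + 1) B S + 1 ∧ 0 ≤ gS k (A + 1) B G S := by
  obtain ⟨f, hf, -⟩ := exists_order (NH G S w) (fun _ => (0 : ℤ))
  have hid := id_one' (G := G) hw k A B j f hf
  have hcard : (nb G S w).card < S.card := by
    apply card_lt_card
    rw [ssubset_iff_of_subset (nb_subset G S w)]
    exact ⟨w, hw, not_mem_nb_self G S w⟩
  have hDw := h.hD w hw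
  have hEw := hE w hw
  have e1 := gS_nb G S k A B w
  have e2 := MS_nb G S k A B w
  have e3 := rS_nb G S k A B w
  have hP2 : 0 ≤ Phi k A B (j + 2) G (nb G S w) :=
    Phi_nonneg (fun m => h.th2 _ m (by exact_mod_cast hcard)) h.hk (by linarith) (by linarith)
  have hP1 : 0 ≤ Phi k A B (j + 1) G (nb G S w) :=
    Phi_nonneg (fun m => h.th1 _ m) h.hk (by linarith) (by linarith)
  have hl := es_nonneg k A B (j + 1)
  have hmem : ∀ u ∈ NH G S w, u ∈ S := fun u hu => (mem_filter.1 hu).1
  have hsum : 0 ≤ Dv k (A + 1) B G S w * ∑ u ∈ NH G S w, con k A B j G S u (Qf G (NH G S w) f u)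
      + es k A B (j + 1) * ∑ u ∈ NH G S w, (Yv k (A + 1) B G S w * Dv k (A + 1) B G S u
        - Dv k (A + 1) B G S w * Yv k (A + 1) B G S u) := by
    rw [mul_sum, mul_sum, ← sum_add_distrib]
    refine sum_nonneg fun u hu => ?_
    have huS := hmem u hu
    have hQ : Qf G (NH G S w) f u ⊆ nb G S u := by
      intro x hx
      have hx' := mem_filter.1 hx
      rw [mem_nb]
      exact ⟨hmem x hx'.1, hx'.2.1⟩
    have hc := con_ge_gam (j := j) h.th1 h.hk huS hQ
      (fun x hx => by
        have hx' := (mem_nb G).1 (hQ hx)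
        exact h.hc u huS x hx'.1 hx'.2) (hE u huS) (by have := h.hD u huS; linarith)
    have hD := h.hD u huS
    have hm := hmax u huS
    have h1 := mul_le_mul_of_nonneg_left hc (by linarith : 0 ≤ Dv k (A + 1) B G S w)
    have h2 : 0 ≤ es k A B (j + 1) * (Dv k (A + 1) B G S w * min 0 (Yv k (A + 1) B G S u) +
        (Yv k (A + 1) B G S w * Dv k (A + 1) B G S u
        - Dv k (A + 1) B G S w * Yv k (A + 1) B G S u)) := by
      refine mul_nonneg hl ?_
      by_cases hYu : 0 ≤ Yv k (A + 1) B G S u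
      · rw [min_eq_left hYu]
        linarith [mul_comm (Dv k (A + 1) B G S w) (Yv k (A + 1) B G S u)]
      · push Not at hYu
        rw [min_eq_right hYu.le]
        have h3 : 0 ≤ Yv k (A + 1) B G S w * Dv k (A + 1) B G S u :=
          mul_nonneg (by linarith) (by linarith)
        linarith
    linarith
  have hmm := K_nonneg G (NH G S w) 2
  set Z : ℤ := Dv k (A + 1) B G S w - Yv k (A + 1) B G S w - rS k (A + 1) B G S
    - K G (NH G S w) 2 with hZ
  have hQ := h.hP
  have hpos : 1 ≤ es k A B (j + 1) * Yv k (A + 1) B G S w * Z := by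
    rw [← hid]
    have h4 : 1 ≤ Dv k (A + 1) B G S w * (- Phi k (A + 1) B (j + 2) G S) := by
      nlinarith
    have h5 : 0 ≤ Dv k (A + 1) B G S w * (Phi k A B (j + 2) G (nb G S w)
        + Phi k A B (j + 1) G (nb G S w)) := mul_nonneg (by linarith) (by linarith)
    linarith
  have hZ1 : 1 ≤ Z := by
    by_contra hcon
    push Not at hcon
    have h6 : es k A B (j + 1) * Yv k (A + 1) B G S w * Z ≤ 0 :=
      mul_nonpos_of_nonneg_of_nonpos (mul_nonneg hl (by linarith)) (by linarith)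
    linarith
  have hr := h.hr
  have h4 := id_E4 G S hw k (A + 1) B
  have hq : 0 ≤ ∑ y ∈ NH G S w, ((Qs G S w y).card : ℤ) := sum_nonneg fun y _ => by positivity
  have hX : Dv k (A + 1) B G S w ≤ MS k (A + 1) B S + 1 := by
    by_contra hcon
    push Not at hcon
    have h7 : (1 - (Dv k (A + 1) B G S w - MS k (A + 1) B S)) * Dv k (A + 1) B G S w
        ≤ - Dv k (A + 1) B G S w := by nlinarith
    linarith
  have h8 := rS_add_gS G S k (A + 1) B
  refine ⟨hZ1, hX, ?_⟩
  by_contra hcon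
  push Not at hcon
  linarith

end Pool.Agent.Helper24.LSr
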